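import Pool.Agent.H57.ML.Targets

/-! The theorem. -/

namespace H73.ML

open H57.ML
open scoped BigOperators
open Finset
open Classical

theorem fin (hRed : RedStmt) : FinalStmt := by
  intro τ hτ
  rw [Asymptotics.isLittleO_iff]
  intro ε hε
  obtain ⟨n0, hn0⟩ := hRed τ ε hτ hε
  filter_upwards [Filter.eventually_ge_atTop n0] with n hn
  rw [Real.norm_of_nonneg (Nat.cast_nonneg _), Real.norm_of_nonneg (Nat.cast_nonneg _)]
  have hB : extremal τ n ≤ ⌊ε * n⌋₊ := by
    refine csSup_le' ?_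
    rintro c ⟨G, _, rfl⟩
    refine csSup_le' ?_
    rintro c ⟨C, hC, hCG, rfl⟩
    refine Nat.le_floor ?_
    have h := hn0 (Fin n) (by simpa using hn) C hC G hCG
    simpa using h
  calc (extremal τ n : ℝ) ≤ (⌊ε * n⌋₊ : ℝ) := by exact_mod_cast hB
    _ ≤ ε * n := Nat.floor_le (by positivity)

end H73.ML
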