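import Pool.Agent.H57.ML.Targets

/-! The cutoff function. -/

namespace H73.ML

open H57.ML
open scoped BigOperators
open Finset
open Classical

/-- truncated distance -/
noncomputable def td (P : ℕ → Prop) (r : ℕ) : ℕ := sInf {k | r ≤ k ∨ P k}

theorem td_spec (P : ℕ → Prop) (r : ℕ) : r ≤ td P r ∨ P (td P r) :=
  Nat.sInf_mem (s := {k | r ≤ k ∨ P k}) ⟨r, Or.inl le_rfl⟩

theorem td_le (P : ℕ → Prop) (r : ℕ) : td P r ≤ r := Nat.sInf_le (Or.inl le_rfl)

theorem td_le_of {P : ℕ → Prop} (r : ℕ) {k : ℕ} (h : P k) : td P r ≤ k := Nat.sInf_le (Or.inr h)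

theorem td_lip {P P' : ℕ → Prop} (r : ℕ) (h : ∀ k, P k → P' (k + 1)) : td P' r ≤ td P r + 1 := by
  rcases td_spec P r with h1 | h1
  · have := td_le P' r
    omega
  · exact td_le_of r (h _ h1)

theorem gf : GfStmt := by
  intro D V _ H hD U y T L r η hη hr hL
  set d : V → ℕ := fun u => td (fun k => ∃ w ∈ U, Within H k u w) r with hd
  set c : V → ℕ := fun u => td (fun k => Within H k y u) (T + L) with hc
  have hdr : ∀ u, d u ≤ r := fun u => td_le _ r
  have hcr : ∀ u, c u ≤ T + L := fun u => td_le _ (T + L)
  set gU : V → ℝ := fun u => if d u = 0 then 0 else Real.exp (-(η * ((r : ℝ) - d u))) with hgU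
  set gy : V → ℝ := fun u => if c u ≤ T then 0 else Real.exp (-(η * (((T + L : ℕ) : ℝ) - c u)))
    with hgy
  have hgU0 : ∀ u, 0 ≤ gU u := by
    intro u; simp only [hgU]; split_ifs
    · exact le_rfl
    · exact (Real.exp_pos _).le
  have hgy0 : ∀ u, 0 ≤ gy u := by
    intro u; simp only [hgy]; split_ifs
    · exact le_rfl
    · exact (Real.exp_pos _).le
  have hgU1 : ∀ u, gU u ≤ 1 := by
    intro u; simp only [hgU]; split_ifs
    · exact zero_le_one
    · have h1 : (d u : ℝ) ≤ r := by exact_mod_cast hdr u
      apply Real.exp_le_one_iff.mpr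
      nlinarith
  set g : V → ℝ := fun u => min (gU u) (gy u) with hg
  have hg0 : ∀ u, 0 ≤ g u := fun u => le_min (hgU0 u) (hgy0 u)
  have hgle1 : ∀ u, g u ≤ gU u := fun u => min_le_left _ _
  have hgle2 : ∀ u, g u ≤ gy u := fun u => min_le_right _ _
  refine ⟨g, fun u => ⟨hg0 u, (hgle1 u).trans (hgU1 u)⟩, ?_, ?_, ?_, ?_⟩
  · intro u hu
    have h1 : c u ≤ T := td_le_of (T + L) hu
    have h2 : gy u = 0 := by simp only [hgy]; rw [if_pos h1]
    exact le_antisymm (h2 ▸ hgle2 u) (hg0 u)
  · intro u hu
    have h1 : d u ≤ 0 := td_le_of r ⟨u, hu, Within.refl 0 u⟩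
    have h2 : gU u = 0 := by simp only [hgU]; rw [if_pos (Nat.le_zero.mp h1)]
    exact le_antisymm (h2 ▸ hgle1 u) (hg0 u)
  · intro u hu1 hu2
    have h1 : c u = T + L := by
      rcases td_spec (fun k => Within H k y u) (T + L) with h | h
      · exact le_antisymm (hcr u) h
      · exact absurd (h.mono (hcr u)) hu1
    have h2 : d u = r := by
      rcases td_spec (fun k => ∃ w ∈ U, Within H k u w) r with h | h
      · exact le_antisymm (hdr u) h
      · by_contra hne
        have h3 : d u ≤ r - 1 := by
          have := hdr u
          omega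
        obtain ⟨w, hw, hw'⟩ := h
        exact hu2 ⟨w, hw, hw'.mono h3⟩
    have h3 : gU u = 1 := by
      simp only [hgU]
      rw [if_neg (by omega), h2]
      simp
    have h4 : gy u = 1 := by
      simp only [hgy]
      rw [if_neg (by omega), h1]
      simp
    simp only [hg, h3, h4, min_self]
  · intro u
    set ind : ℝ := if ∃ w ∈ U, Within H 1 u w then 1 else 0 with hind
    have hind0 : 0 ≤ ind := by rw [hind]; split_ifs <;> norm_num
    have he1 : 0 < Real.exp (-(η * ((r : ℝ) - 1))) := Real.exp_pos _
    have he2 : 0 < Real.exp (-(η * ((L : ℝ) - 1))) := Real.exp_pos _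
    have hexp : 1 - η ≤ Real.exp (-η) := by
      have := Real.add_one_le_exp (-η)
      linarith
    have key : ∀ u', H.Adj u u' → max (g u - g u') 0 ≤
        η * g u + Real.exp (-(η * ((r : ℝ) - 1))) * ind + Real.exp (-(η * ((L : ℝ) - 1))) := by
      intro u' hadj
      have hgu := hg0 u
      have hgu' := hg0 u'
      have hbase : 0 ≤ η * g u + Real.exp (-(η * ((r : ℝ) - 1))) * ind +
          Real.exp (-(η * ((L : ℝ) - 1))) := by positivity
      refine max_le ?_ hbase
      have hp1 : 0 ≤ Real.exp (-(η * ((r : ℝ) - 1))) * ind := by positivity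
      -- Lipschitz bounds
      have hdl : d u ≤ d u' + 1 := td_lip r fun k hk => by
        obtain ⟨w, hw, hw'⟩ := hk
        refine ⟨w, hw, ?_⟩
        have := (Within.of_adj hadj).trans hw'
        exact this.mono (by omega)
      have hcl : c u ≤ c u' + 1 := td_lip (T + L) fun k hk => hk.step hadj.symm
      rcases le_total (gU u') (gy u') with hcase | hcase
      · have e1 : g u' = gU u' := min_eq_left hcase
        by_cases h0 : d u' = 0
        · have h1 : ind = 1 := by
            rw [hind, if_pos]
            rcases td_spec (fun k => ∃ w ∈ U, Within H k u' w) r with h | h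
            · exfalso
              have : r ≤ d u' := h
              omega
            · obtain ⟨w, hw, hw'⟩ := h
              have h2 : Within H 0 u' w := by
                have : Within H (d u') u' w := hw'
                rwa [h0] at this
              exact ⟨w, hw, ((Within.of_adj hadj).trans h2).mono (by omega)⟩
          have h2 : gU u ≤ Real.exp (-(η * ((r : ℝ) - 1))) := by
            simp only [hgU]
            split_ifs with h3
            · exact he1.le
            · apply Real.exp_le_exp.mpr
              have h4 : (d u : ℝ) ≤ 1 := by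
                have : d u ≤ 1 := by omega
                exact_mod_cast this
              nlinarith
          have h5 := hgle1 u
          rw [h1, mul_one]
          have h6 : 0 ≤ η * g u := by positivity
          linarith
        · by_cases h0' : d u = 0
          · have : gU u = 0 := by simp only [hgU]; rw [if_pos h0']
            have h7 := hgle1 u
            have h6 : 0 ≤ η * g u := by positivity
            linarith
          · have h1 : gU u * Real.exp (-η) ≤ gU u' := by
              simp only [hgU]
              rw [if_neg h0, if_neg h0', ← Real.exp_add]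
              apply Real.exp_le_exp.mpr
              have h4 : (d u : ℝ) ≤ d u' + 1 := by exact_mod_cast hdl
              nlinarith
            have h2 : g u * Real.exp (-η) ≤ gU u' :=
              (mul_le_mul_of_nonneg_right (hgle1 u) (Real.exp_pos _).le).trans h1
            rw [e1]
            nlinarith
      · have e1 : g u' = gy u' := min_eq_right hcase
        by_cases h0 : c u' ≤ T
        · have h2 : gy u ≤ Real.exp (-(η * ((L : ℝ) - 1))) := by
            simp only [hgy]
            split_ifs with h3
            · exact he2.le
            · apply Real.exp_le_exp.mpr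
              have h4 : (c u : ℝ) ≤ T + 1 := by
                have : c u ≤ T + 1 := by omega
                exact_mod_cast this
              push_cast
              nlinarith
          have h5 := hgle2 u
          have h6 : 0 ≤ η * g u := by positivity
          linarith
        · by_cases h0' : c u ≤ T
          · have : gy u = 0 := by simp only [hgy]; rw [if_pos h0']
            have h7 := hgle2 u
            have h6 : 0 ≤ η * g u := by positivity
            linarith
          · have h1 : gy u * Real.exp (-η) ≤ gy u' := by
              simp only [hgy]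
              rw [if_neg h0, if_neg h0', ← Real.exp_add]
              apply Real.exp_le_exp.mpr
              have h4 : (c u : ℝ) ≤ c u' + 1 := by exact_mod_cast hcl
              nlinarith
            have h2 : g u * Real.exp (-η) ≤ gy u' :=
              (mul_le_mul_of_nonneg_right (hgle2 u) (Real.exp_pos _).le).trans h1
            rw [e1]
            nlinarith
    have hsum : ∑ u' ∈ univ.filter (fun u' => H.Adj u u'), max (g u - g u') 0 ≤
        ((univ.filter (fun u' => H.Adj u u')).card : ℝ) *
        (η * g u + Real.exp (-(η * ((r : ℝ) - 1))) * ind + Real.exp (-(η * ((L : ℝ) - 1)))) := by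
      rw [← nsmul_eq_mul]
      refine Finset.sum_le_card_nsmul _ _ _ fun u' hu' => ?_
      simp only [mem_filter, mem_univ, true_and] at hu'
      exact key u' hu'
    have hcard : ((univ.filter (fun u' => H.Adj u u')).card : ℝ) ≤ D := by exact_mod_cast hD u
    have hgu := hg0 u
    have hbase : 0 ≤ η * g u + Real.exp (-(η * ((r : ℝ) - 1))) * ind +
        Real.exp (-(η * ((L : ℝ) - 1))) := by positivity
    calc ∑ u' ∈ univ.filter (fun u' => H.Adj u u'), max (g u - g u') 0
        ≤ (D : ℝ) * (η * g u + Real.exp (-(η * ((r : ℝ) - 1))) * ind +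
          Real.exp (-(η * ((L : ℝ) - 1)))) := hsum.trans (by gcongr)
      _ = _ := by ring

end H73.ML
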