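import Pool.Agent.H57.ML.Targets

/-! Choice of the constants. -/

namespace H73.ML

open H57.ML
open scoped BigOperators
open Finset
open Classical

/-- Reindexing the cops. -/
theorem win_reindex {V ι κ : Type} {C R : SimpleGraph V} (e : κ ≃ ι) : ∀ (t : ℕ) (p : ι → V) (r : V),
    WinIn (fun _ => C) R t p r → WinIn (fun _ => C) R t (p ∘ e) r := by
  intro t
  induction t with
  | zero =>
    intro p r h
    obtain ⟨i, hi⟩ := h
    exact ⟨e.symm i, by simpa using hi⟩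
  | succ t ih =>
    intro p r h
    rcases h with ⟨i, hi⟩ | ⟨p', hp', h⟩
    · exact Or.inl ⟨e.symm i, by simpa using hi⟩
    · refine Or.inr ⟨p' ∘ e, fun j => hp' (e j), ?_⟩
      rcases h with ⟨i, hi⟩ | h
      · exact Or.inl ⟨e.symm i, by simpa using hi⟩
      · exact Or.inr fun r' hr' => ih p' r' (h r' hr')

/-- exponentials become small -/
theorem exists_exp_small (D : ℕ) {η θ : ℝ} (hη : 0 < η) (hθ : 0 < θ) :
    ∃ r : ℕ, 1 ≤ r ∧ (D : ℝ) * Real.exp (-(η * ((r : ℝ) - 1))) ≤ θ := by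
  obtain ⟨k, hk⟩ := exists_nat_gt ((D : ℝ) / (θ * η))
  refine ⟨k + 1, by omega, ?_⟩
  push_cast
  rw [add_sub_cancel_right]
  have h0 : 0 ≤ (D : ℝ) / (θ * η) := by positivity
  have hk0 : (0 : ℝ) < k := lt_of_le_of_lt h0 hk
  have h1 : η * k < Real.exp (η * k) := by
    have := Real.add_one_le_exp (η * k)
    linarith
  rw [Real.exp_neg, ← div_eq_mul_inv, div_le_iff₀ (Real.exp_pos _)]
  rw [div_lt_iff₀ (by positivity)] at hk
  have h2 : θ * (η * k) ≤ θ * Real.exp (η * k) := by gcongr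
  nlinarith

theorem path (hStage : StageStmt) (hCnt : CntStmt) (hRnd : RndStmt) (hTour : TourStmt) :
    PathStmt := by
  intro D ε hD hε
  have hD' : (1 : ℝ) ≤ D := by exact_mod_cast hD
  -- the constants
  set η : ℝ := min (ε / (8 * ((D : ℝ) + 6))) (1 / (2 * ((D : ℝ) + 1))) with hη
  have hη0 : 0 < η := lt_min (by positivity) (by positivity)
  have hη1 : η ≤ ε / (8 * ((D : ℝ) + 6)) := min_le_left _ _
  have hη2 : η ≤ 1 / (2 * ((D : ℝ) + 1)) := min_le_right _ _
  set M1 : ℝ := (64 * (D : ℝ) ^ 3 + 1) * D * (2 * (2 * (D : ℝ)) ^ 1) / η ^ 2 with hM1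
  have hM1pos : 0 < M1 := by positivity
  obtain ⟨r, hr1, hr⟩ := exists_exp_small D hη0 (θ := min (η / M1) (1 / 2))
    (lt_min (by positivity) (by norm_num))
  set M2 : ℝ := (64 * (D : ℝ) ^ 3 + 1) * D * (2 * (2 * (D : ℝ)) ^ (r - 1)) / η ^ 2 with hM2
  have hM2pos : 0 < M2 := by positivity
  set m : ℕ := ⌈M2⌉₊ + 3 with hm
  have hmM2 : M2 + 3 ≤ (m : ℝ) := by
    rw [hm]; push_cast
    have := Nat.le_ceil M2
    linarith
  have hm2 : 2 ≤ m := by omega
  have hm0 : (0 : ℝ) < m := by positivity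
  obtain ⟨J, hJ⟩ : ∃ J : ℕ, 16 * D * m + r ≤ J := ⟨_, le_rfl⟩
  have hJ1 : 16 * D * m ≤ 2 ^ J := by
    have : J < 2 ^ J := Nat.lt_two_pow_self
    omega
  have hJr : r < J := by
    have : 0 < 16 * D * m := by positivity
    omega
  have hJ1' : 1 < J := by omega
  obtain ⟨L, hL1, hL⟩ := exists_exp_small D hη0 (θ := min (η / m) (1 / 2))
    (lt_min (by positivity) (by norm_num))
  set δ : ℝ := η / m with hδ
  have hδ0 : 0 < δ := by positivity
  set b : ℕ := ⌈(m : ℝ) / η⌉₊ with hb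
  have hb1 : (m : ℝ) / η ≤ b := Nat.le_ceil _
  have hbpos : 1 ≤ b := by
    rw [hb, Nat.one_le_ceil_iff]; positivity
  have hb' : (0 : ℝ) < b := by exact_mod_cast hbpos
  -- radii
  choose F0 hF0 using fun (S : ℕ) => hRnd D S δ hD hδ0
  set W : ℕ → ℕ := fun R => F0 (R + J) + 1 with hW
  set Rr : ℕ → ℕ := fun k => Nat.rec 0 (fun _ R => W R * b + L + 2 * R + 2) k with hRr
  have hRsucc : ∀ k, Rr (k + 1) = W (Rr k) * b + L + 2 * Rr k + 2 := fun k => rfl
  set ρ : ℕ → ℕ := fun a => Rr (m - a) with hρ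
  set pw : ℕ → ℕ := fun a => W (Rr (m - a - 1)) with hpw
  set P : ℕ := ∏ a ∈ range m, pw a with hP
  have hpw1 : ∀ a, 1 ≤ pw a := fun a => by simp only [hpw, hW]; omega
  have hPpos : 1 ≤ P := Nat.one_le_iff_ne_zero.mpr (Finset.prod_ne_zero_iff.mpr fun a _ => by
    have := hpw1 a; omega)
  have hP' : (0 : ℝ) < P := by exact_mod_cast hPpos
  set q : ℕ := ⌈((D : ℝ) + 5) * η * b⌉₊ with hq
  set M : ℕ := (D + 1) ^ (ρ 1) with hM
  set K : ℝ := P * (((D : ℝ) + 5) * η * b + 1) + M with hK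
  refine ⟨⌈2 * K / ε⌉₊ + 1, ?_⟩
  intro V _ hn C H hC hH
  set n : ℕ := Fintype.card V with hndef
  have hnK : K ≤ ε / 2 * n := by
    have h1 : 2 * K / ε ≤ ⌈2 * K / ε⌉₊ := Nat.le_ceil _
    have h2 : ((⌈2 * K / ε⌉₊ + 1 : ℕ) : ℝ) ≤ n := by exact_mod_cast hn
    push_cast at h2
    have h3 : 2 * K / ε ≤ n := by linarith
    rw [div_le_iff₀ hε] at h3
    linarith
  haveI : Nonempty V := by
    rw [← Fintype.card_pos_iff]
    omega
  obtain ⟨c, hc1, hc2⟩ := hTour V C hC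
  choose σ hσ1 hσ2 using hc2
  obtain ⟨ξ, hξ, hcnt⟩ := hCnt D m J η hD hη0 hJ1 ρ V H hH
  set N : ℕ := P * (2 * n / (b * P) + 1) with hN
  have hbP : 0 < b * P := Nat.mul_pos hbpos hPpos
  have htime : 2 * n < N * b := by
    have h := Nat.lt_mul_div_succ (2 * n) hbP
    calc 2 * n < b * P * (2 * n / (b * P) + 1) := h
      _ = N * b := by rw [hN]; ring
  have hhyp : StageHyp V C H D m J r L b q N M η δ ρ pw ξ c σ := by
    refine
      { conn := hC, deg := hH, hD := hD, hm := hm2, hb := hbpos, hr := hr1, hL := hL1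
        eta_pos := hη0, delta_pos := hδ0, rho := ?_, rnd := ?_, pw_pos := hpw1, pw_dvd := ?_
        xi_mem := hξ, cnt1 := ?_, cntr := ?_, alpha := ?_, beta := ?_, kappa2 := ?_, delta := ?_
        round := ?_, q_ge := Nat.le_ceil _, walk := hc1, visit := hσ2, time := ?_, flood := ?_ }
    · intro a ha1 ha
      have h1 : m - a = (m - (a + 1)) + 1 := by omega
      have h2 : m - a - 1 = m - (a + 1) := by omega
      simp only [hρ, hpw]
      rw [h2, h1, hRsucc]
    · intro a ha1 ha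
      have h2 : m - a - 1 = m - (a + 1) := by omega
      simp only [hρ, hpw]
      rw [h2]
      refine hF0 (Rr (m - (a + 1)) + J) _ ?_
      simp only [hW]
      calc F0 (Rr (m - (a + 1)) + J) ≤ (F0 (Rr (m - (a + 1)) + J) + 1) * 1 := by omega
        _ ≤ _ := Nat.mul_le_mul_left _ hbpos
    · intro a ha1 ha
      exact (Finset.dvd_prod_of_mem pw (mem_range.mpr ha)).trans (Dvd.intro _ rfl)
    · intro l x
      have h1 := hcnt l x 1 hJ1'
      have h2 := hr.trans (min_le_left _ _)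
      calc (D : ℝ) * Real.exp (-(η * ((r : ℝ) - 1))) * (cnt H ρ m ξ η 1 x l : ℝ)
          ≤ η / M1 * M1 := by gcongr
        _ = η := by field_simp
    · intro l x
      have h1 := hcnt l x (r - 1) (by omega)
      have h2 : ((cnt H ρ m ξ η (r - 1) x l : ℕ) : ℝ) + 1 < m := by
        have : (cnt H ρ m ξ η (r - 1) x l : ℝ) ≤ M2 := h1
        linarith
      exact_mod_cast h2
    · calc ((D : ℝ) + 1) * η ≤ ((D : ℝ) + 1) * (1 / (2 * ((D : ℝ) + 1))) := by gcongr
        _ = 1 / 2 := by field_simp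
        _ ≤ 1 := by norm_num
    · have h1 := hr.trans (min_le_right _ _)
      have h2 := hL.trans (min_le_right _ _)
      linarith
    · have h2 := hL.trans (min_le_left _ _)
      calc (m : ℝ) * ((D : ℝ) * Real.exp (-(η * ((L : ℝ) - 1)))) ≤ m * (η / m) := by gcongr
        _ = η := by field_simp
    · rw [hδ]
      have : (m : ℝ) * (η / m) = η := by field_simp
      exact this.le
    · rw [div_le_iff₀ hη0] at hb1
      linarith
    · intro v
      exact lt_of_le_of_lt (hσ1 v) htime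
    · intro y
      exact card_ball_le hH (ρ 1) y
  obtain ⟨p, hp⟩ := hStage V C H D m J r L b q N M η δ ρ pw ξ c σ hhyp
  refine ⟨N * q + M, ?_, p ∘ (Equiv.sumCongr finProdFinEquiv.symm (Equiv.refl _)) ∘
    finSumFinEquiv.symm, ?_⟩
  · -- counting
    have hn0 : (0 : ℝ) ≤ n := Nat.cast_nonneg _
    have hNle : (N : ℝ) ≤ 2 * n / b + P := by
      have h1 : ((2 * n / (b * P) : ℕ) : ℝ) ≤ (2 * n : ℕ) / ((b * P : ℕ) : ℝ) := Nat.cast_div_le
      rw [hN]
      push_cast at h1 ⊢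
      calc (P : ℝ) * (((2 * n / (b * P) : ℕ) : ℝ) + 1) ≤ P * (2 * n / (b * P) + 1) := by gcongr
        _ = 2 * n / b + P := by field_simp
    have hqle : (q : ℝ) ≤ ((D : ℝ) + 5) * η * b + 1 := (Nat.ceil_lt_add_one (by positivity)).le
    have hm2' : (2 : ℝ) ≤ m := by exact_mod_cast hm2
    have hbη : 1 / (b : ℝ) ≤ η / 2 := by
      rw [div_le_iff₀ hb']
      rw [div_le_iff₀ hη0] at hb1
      nlinarith
    have hDη : (8 * ((D : ℝ) + 6)) * η ≤ ε := by
      rw [le_div_iff₀ (by positivity)] at hη1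
      linarith
    have h1 : 2 * (n : ℝ) / b * (((D : ℝ) + 5) * η * b + 1) ≤ ε / 4 * n := by
      have e : 2 * (n : ℝ) / b * (((D : ℝ) + 5) * η * b + 1) =
          2 * n * (((D : ℝ) + 5) * η) + 2 * n * (1 / b) := by field_simp
      rw [e]
      have : 2 * (n : ℝ) * (1 / b) ≤ 2 * n * (η / 2) := by gcongr
      nlinarith
    push_cast
    calc (N : ℝ) * q + M ≤ (2 * n / b + P) * (((D : ℝ) + 5) * η * b + 1) + M := by gcongr
      _ = 2 * n / b * (((D : ℝ) + 5) * η * b + 1) + K := by rw [hK]; ring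
      _ ≤ ε / 4 * n + ε / 2 * n := add_le_add h1 hnK
      _ ≤ ε * n := by nlinarith
  · intro y
    obtain ⟨t, ht⟩ := hp y
    refine ⟨t, ?_⟩
    have h := win_reindex (finSumFinEquiv.symm.trans
      (Equiv.sumCongr (finProdFinEquiv (m := N) (n := q)).symm (Equiv.refl (Fin M)))) t p y ht
    exact h

end H73.ML
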