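import Pool.Agent.H57.ML.Targets

/-! Reduction of the multi-layer game. -/

namespace H73.ML

open H57.ML
open scoped BigOperators
open Finset
open Classical

theorem red (hSta : StaStmt) (hPath : PathStmt) (hStrat : StratStmt) (hTrans : TransStmt) :
    RedStmt := by
  intro τ ε hτ hε
  set D0 : ℕ := ⌈2 * τ / ε⌉₊ with hD0
  have hτ' : (1 : ℝ) ≤ τ := by exact_mod_cast hτ
  have hD0' : 2 * τ / ε ≤ (D0 : ℝ) := Nat.le_ceil _
  have hD0pos : 1 ≤ D0 := by
    rw [hD0, Nat.one_le_ceil_iff]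
    positivity
  obtain ⟨n0, hn0⟩ := hPath (τ * D0) (ε / 2) (Nat.one_le_iff_ne_zero.mpr (by positivity))
    (by positivity)
  refine ⟨n0, ?_⟩
  intro V _ hn C hC G hG
  choose S hS1 hS2 using fun i => hSta V (C i) D0 hD0pos
  set V' : Set V := {v | ∀ i, v ∉ S i ∧ ∀ s ∈ S i, ¬ (C i).Adj s v} with hV'
  set H : SimpleGraph V :=
    { Adj := fun u v => G.Adj u v ∧ u ∈ V' ∧ v ∈ V'
      symm := ⟨fun u v h => ⟨h.1.symm, h.2.2, h.2.1⟩⟩
      loopless := ⟨fun u h => G.loopless.irrefl u h.1⟩ } with hH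
  have hdeg : DegLE H (τ * D0) := by
    intro v
    have hsub : univ.filter (fun u => H.Adj v u) ⊆ (univ : Finset (Fin τ)).biUnion fun i =>
        univ.filter (fun u => (C i).Adj v u ∧ u ∉ S i ∧ ∀ s ∈ S i, ¬ (C i).Adj s u) := by
      intro u hu
      simp only [mem_filter, mem_univ, true_and, mem_biUnion] at hu ⊢
      obtain ⟨h1, h2, h3⟩ := hu
      rw [← hG, SimpleGraph.iSup_adj] at h1
      obtain ⟨i, hi⟩ := h1
      exact ⟨i, hi, (h3 i).1, (h3 i).2⟩
    have key := (card_le_card hsub).trans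
      (card_biUnion_le_card_mul _ _ D0 fun i _ => (hS2 i v).le)
    rw [card_univ, Fintype.card_fin] at key
    refine le_trans (le_of_eq ?_) key
    congr
  have hτ0 : 0 < τ := hτ
  obtain ⟨N, hN, p, hp⟩ := hn0 V hn (C ⟨0, hτ0⟩) H (hC _) hdeg
  set κ : Type := Σ i : Fin τ, {x // x ∈ S i} with hκ
  have hguard : ∀ v, v ∉ V' → ∃ j : κ, (fun q : κ => (q.2 : V)) j = v ∨
      ((fun q : κ => C q.1) j).Adj ((fun q : κ => (q.2 : V)) j) v := by
    intro v hv
    simp only [hV', Set.mem_ofPred_eq, not_forall] at hv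
    obtain ⟨i, hi⟩ := hv
    by_cases h1 : v ∈ S i
    · exact ⟨⟨i, ⟨v, h1⟩⟩, Or.inl rfl⟩
    · have h2 : ∃ s ∈ S i, (C i).Adj s v := by
        by_contra hcon
        push Not at hcon
        exact hi ⟨h1, hcon⟩
      obtain ⟨s, hs, hadj⟩ := h2
      exact ⟨⟨i, ⟨s, hs⟩⟩, Or.inr hadj⟩
  have hwin : ∀ r, Win (Sum.elim (fun _ : Fin N => C ⟨0, hτ0⟩) (fun q : κ => C q.1)) G
      (Sum.elim p (fun q : κ => (q.2 : V))) r := by
    intro r
    refine hTrans V (Fin N) κ (fun _ => C ⟨0, hτ0⟩) (fun q => C q.1) G H p (fun q => (q.2 : V)) V'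
      ?_ hguard r (fun _ => hp r)
    intro u v h hu hv
    exact ⟨h, hu, hv⟩
  have hcop : copNumber (⟨C, G⟩ : MultiLayerGraph V τ) ≤ Fintype.card (Fin N ⊕ κ) := by
    refine hStrat V τ ⟨C, G⟩ (Fin N ⊕ κ) (Sum.elim (fun _ => ⟨0, hτ0⟩) (fun q => q.1))
      (Sum.elim p (fun q : κ => (q.2 : V))) ?_
    intro r
    have e : (fun c : Fin N ⊕ κ => C ((Sum.elim (fun _ => (⟨0, hτ0⟩ : Fin τ)) (fun q : κ => q.1)) c))
        = Sum.elim (fun _ : Fin N => C ⟨0, hτ0⟩) (fun q : κ => C q.1) := by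
      funext c
      cases c <;> rfl
    show Win (fun c : Fin N ⊕ κ => C ((Sum.elim (fun _ => (⟨0, hτ0⟩ : Fin τ))
      (fun q : κ => q.1)) c)) G _ r
    rw [e]
    exact hwin r
  have hcard : Fintype.card (Fin N ⊕ κ) = N + ∑ i, (S i).card := by
    rw [Fintype.card_sum, Fintype.card_fin]
    congr 1
    show Fintype.card (Σ i : Fin τ, {x // x ∈ S i}) = _
    rw [Fintype.card_sigma]
    refine Finset.sum_congr rfl fun i _ => ?_
    exact Fintype.card_coe (S i)
  have hSi : ∀ i, ((S i).card : ℝ) ≤ ε / (2 * τ) * Fintype.card V := by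
    intro i
    have h1 : (D0 : ℝ) * (S i).card ≤ Fintype.card V := by exact_mod_cast hS1 i
    have h2 : 2 * τ / ε * (S i).card ≤ Fintype.card V :=
      le_trans (mul_le_mul_of_nonneg_right hD0' (Nat.cast_nonneg _)) h1
    have h3 : ((S i).card : ℝ) = ε / (2 * τ) * (2 * τ / ε * (S i).card) := by
      field_simp
    rw [h3]
    gcongr
  have hsum : ((∑ i, (S i).card : ℕ) : ℝ) ≤ ε / 2 * Fintype.card V := by
    push_cast
    calc ∑ i, ((S i).card : ℝ) ≤ ∑ _i : Fin τ, ε / (2 * τ) * Fintype.card V :=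
          Finset.sum_le_sum fun i _ => hSi i
      _ = ε / 2 * Fintype.card V := by
          rw [Finset.sum_const, card_univ, Fintype.card_fin, nsmul_eq_mul]
          field_simp
  calc (copNumber (⟨C, G⟩ : MultiLayerGraph V τ) : ℝ) ≤ (Fintype.card (Fin N ⊕ κ) : ℝ) := by
        exact_mod_cast hcop
    _ = N + ((∑ i, (S i).card : ℕ) : ℝ) := by rw [hcard]; push_cast; ring
    _ ≤ ε / 2 * Fintype.card V + ε / 2 * Fintype.card V := add_le_add hN hsum
    _ = ε * Fintype.card V := by ring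

end H73.ML
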