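import Pool.Agent.H57.ML.Targets

/-! From winning positions to strategies. -/

namespace H73.ML

open H57.ML
open scoped BigOperators
open Finset
open Classical

variable {V : Type} {ι : Type*}

/-- the least number of rounds -/
noncomputable def rk (A : ι → SimpleGraph V) (R : SimpleGraph V) (p : ι → V) (r : V) : ℕ :=
  sInf {t | WinIn A R t p r}

/-- good move: legal, and it captures, or decreases the rank against every reply -/
def Good (A : ι → SimpleGraph V) (R : SimpleGraph V) (p : ι → V) (r : V) (p' : ι → V) : Prop :=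
  (∀ i, p' i = p i ∨ (A i).Adj (p i) (p' i)) ∧
    ((∃ i, p' i = r) ∨ ∀ r', (r' = r ∨ R.Adj r r') → Win A R p' r' ∧ rk A R p' r' < rk A R p r)

theorem exists_good {A : ι → SimpleGraph V} {R : SimpleGraph V} {p : ι → V} {r : V}
    (h : Win A R p r) : (∃ i, p i = r) ∨ ∃ p', Good A R p r p' := by
  have hmem : WinIn A R (rk A R p r) p r := Nat.sInf_mem (s := {t | WinIn A R t p r}) h
  rcases hn : rk A R p r with _ | n
  · rw [hn] at hmem
    exact Or.inl hmem
  · rw [hn] at hmem
    rcases hmem with h1 | ⟨p', hp', h2⟩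
    · exact Or.inl h1
    · refine Or.inr ⟨p', hp', ?_⟩
      rcases h2 with h2 | h2
      · exact Or.inl h2
      · refine Or.inr fun r' hr' => ⟨⟨n, h2 r' hr'⟩, ?_⟩
        have : rk A R p' r' ≤ n := Nat.sInf_le (s := {t | WinIn A R t p' r'}) (h2 r' hr')
        omega

/-- the move of the strategy -/
noncomputable def stp (A : ι → SimpleGraph V) (R : SimpleGraph V) (p : ι → V) (r : V) : ι → V :=
  if h : ∃ p', Good A R p r p' then h.choose else p

theorem stp_legal (A : ι → SimpleGraph V) (R : SimpleGraph V) (p : ι → V) (r : V) (i : ι) :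
    stp A R p r i = p i ∨ (A i).Adj (p i) (stp A R p r i) := by
  unfold stp
  split_ifs with h
  · exact h.choose_spec.1 i
  · exact Or.inl rfl

theorem stp_good {A : ι → SimpleGraph V} {R : SimpleGraph V} {p : ι → V} {r : V}
    (h : ∃ p', Good A R p r p') : Good A R p r (stp A R p r) := by
  unfold stp
  rw [dif_pos h]
  exact h.choose_spec

/-- positions after a history -/
noncomputable def ps (A : ι → SimpleGraph V) (R : SimpleGraph V) (p : ι → V) : List V → ι → V
  | [] => p
  | r :: h => stp A R (ps A R p h) r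

theorem ps_wins {A : ι → SimpleGraph V} {R : SimpleGraph V} {p : ι → V} (r : ℕ → V)
    (hr : ∀ t, r (t + 1) = r t ∨ R.Adj (r t) (r (t + 1))) : ∀ (n t : ℕ),
    Win A R (ps A R p (hist r t)) (r t) → rk A R (ps A R p (hist r t)) (r t) ≤ n →
    ∃ t i, ps A R p (hist r t) i = r t ∨ ps A R p (hist r (t + 1)) i = r t := by
  intro n
  induction n with
  | zero =>
    intro t hw hn
    have hmem : WinIn A R (rk A R (ps A R p (hist r t)) (r t)) (ps A R p (hist r t)) (r t) :=
      Nat.sInf_mem (s := {k | WinIn A R k (ps A R p (hist r t)) (r t)}) hw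
    rw [Nat.le_zero.mp hn] at hmem
    obtain ⟨i, hi⟩ := hmem
    exact ⟨t, i, Or.inl hi⟩
  | succ n ih =>
    intro t hw hn
    rcases exists_good hw with ⟨i, hi⟩ | hg
    · exact ⟨t, i, Or.inl hi⟩
    · have hG := stp_good hg
      rcases hG.2 with ⟨i, hi⟩ | h2
      · exact ⟨t, i, Or.inr hi⟩
      · have h3 := h2 (r (t + 1)) (hr t)
        refine ih (t + 1) h3.1 ?_
        have h4 : rk A R (ps A R p (hist r (t + 1))) (r (t + 1)) <
          rk A R (ps A R p (hist r t)) (r t) := h3.2
        omega

theorem strat : StratStmt := by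
  intro V _ τ 𝒢 ι _ lay p hwin
  refine Nat.sInf_le ⟨fun i => Fintype.card {c // lay c = i}, ?_, ?_⟩
  · rw [← Fintype.card_sigma]
    exact Fintype.card_congr (Equiv.sigmaFiberEquiv lay)
  · set e : ∀ i, Fin (Fintype.card {c // lay c = i}) ≃ {c // lay c = i} :=
      fun i => (Fintype.equivFin _).symm with he
    set A : ι → SimpleGraph V := fun c => 𝒢.C (lay c) with hA
    refine ⟨⟨fun h i j => ps A 𝒢.R p h (e i j).1, ?_⟩, ?_⟩
    · intro h r i j
      have h1 := stp_legal A 𝒢.R (ps A 𝒢.R p h) r (e i j).1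
      have h2 : A (e i j).1 = 𝒢.C i := by
        simp only [hA]
        rw [(e i j).2]
      rw [h2] at h1
      exact h1
    · intro r hr
      obtain ⟨t, c, h⟩ := ps_wins (A := A) (p := p) r hr _ 0 (hwin (r 0)) le_rfl
      refine ⟨t, lay c, (e (lay c)).symm ⟨c, rfl⟩, ?_⟩
      simp only [Equiv.apply_symm_apply]
      exact h

end H73.ML
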