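import Pool.Agent.H57.ML.Targets

/-! A lazy walk visiting everything. -/

namespace H73.ML

open H57.ML
open scoped BigOperators
open Finset
open Classical

theorem exists_closed_walk {V : Type} [Fintype V] (G : SimpleGraph V) (hG : G.Connected) (x : V) :
    ∀ k, k < Fintype.card V → ∃ w : G.Walk x x, w.length ≤ 2 * k ∧
      k + 1 ≤ w.support.toFinset.card := by
  intro k
  induction k with
  | zero => intro _; exact ⟨SimpleGraph.Walk.nil, by simp, by simp⟩
  | succ k ih =>
    intro hk
    obtain ⟨w, hw, hc⟩ := ih (by omega)
    by_cases hbig : k + 1 + 1 ≤ w.support.toFinset.card
    · exact ⟨w, by omega, hbig⟩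
    have hcard : w.support.toFinset.card < Fintype.card V := by omega
    -- an edge leaving the support
    have hex : ∃ a ∈ w.support, ∃ b, b ∉ w.support ∧ G.Adj a b := by
      by_contra hcon
      push Not at hcon
      have hall : ∀ v, v ∈ w.support := by
        intro v
        obtain ⟨p⟩ := hG.preconnected x v
        have : ∀ {u v : V} (p : G.Walk u v), u ∈ w.support → v ∈ w.support := by
          intro u v p
          induction p with
          | nil => exact id
          | cons h p ih =>
            intro hu
            refine ih ?_
            by_contra hn
            exact hcon _ hu _ hn h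
        exact this p w.start_mem_support
      have : w.support.toFinset = univ := by
        ext v
        simp [hall v]
      rw [this, card_univ] at hcard
      exact lt_irrefl _ hcard
    obtain ⟨a, ha, b, hb, hab⟩ := hex
    set w' : G.Walk x x :=
      (w.takeUntil a ha).append (SimpleGraph.Walk.cons hab (SimpleGraph.Walk.cons hab.symm
        (w.dropUntil a ha))) with hw'
    refine ⟨w', ?_, ?_⟩
    · rw [hw']
      simp only [SimpleGraph.Walk.length_append, SimpleGraph.Walk.length_cons]
      have h1 := congrArg SimpleGraph.Walk.length (w.take_spec ha)
      rw [SimpleGraph.Walk.length_append] at h1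
      omega
    · have hsub : insert b w.support.toFinset ⊆ w'.support.toFinset := by
        intro v hv
        rw [mem_insert, List.mem_toFinset] at hv
        rw [List.mem_toFinset, hw', SimpleGraph.Walk.mem_support_append_iff]
        rcases hv with rfl | hv
        · right
          simp
        · have h1 : v ∈ ((w.takeUntil a ha).append (w.dropUntil a ha)).support := by
            rw [w.take_spec ha]; exact hv
          rw [SimpleGraph.Walk.mem_support_append_iff] at h1
          rcases h1 with h1 | h1
          · exact Or.inl h1
          · right
            simp [h1]
      have h2 := card_le_card hsub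
      rw [card_insert_of_notMem (by simpa using hb)] at h2
      omega

theorem tour : TourStmt := by
  intro V _ _ G hG
  obtain ⟨x⟩ := ‹Nonempty V›
  have hpos : 0 < Fintype.card V := Fintype.card_pos_iff.mpr ⟨x⟩
  obtain ⟨w, hw, hc⟩ := exists_closed_walk G hG x (Fintype.card V - 1) (by omega)
  refine ⟨fun t => w.getVert t, ?_, ?_⟩
  · intro t
    by_cases ht : t < w.length
    · exact Or.inr (w.adj_getVert_succ ht)
    · left
      simp only
      rw [w.getVert_of_length_le (by omega), w.getVert_of_length_le (by omega)]
  · intro v
    have huniv : w.support.toFinset = univ := by
      apply eq_univ_of_card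
      have := card_le_univ w.support.toFinset
      omega
    have hv : v ∈ w.support := by
      have : v ∈ w.support.toFinset := by rw [huniv]; exact mem_univ v
      simpa using this
    obtain ⟨t, ht, htl⟩ := SimpleGraph.Walk.mem_support_iff_exists_getVert.mp hv
    exact ⟨t, by omega, ht⟩

end H73.ML
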