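import Pool.Agent.H57.ML.Targets

/-! Static guards. -/

namespace H73.ML

open H57.ML
open scoped BigOperators
open Finset
open Classical

theorem trans : TransStmt := by
  intro V ι κ _ A B R H p s V' hRH hs r hr
  have guard : ∀ (t : ℕ) (p : ι → V) (v : V), v ∉ V' →
      WinIn (Sum.elim A B) R (t + 1) (Sum.elim p s) v := by
    intro t p v hv
    obtain ⟨j, hj⟩ := hs v hv
    rcases hj with hj | hj
    · exact Or.inl ⟨Sum.inr j, hj⟩
    · refine Or.inr ⟨Function.update (Sum.elim p s) (Sum.inr j) v, ?_, Or.inl ⟨Sum.inr j, by simp⟩⟩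
      intro i
      by_cases h : i = Sum.inr j
      · subst h
        right
        simpa using hj
      · left
        exact Function.update_of_ne h _ _
  have main : ∀ (t : ℕ) (p : ι → V) (v : V), WinIn A H t p v →
      WinIn (Sum.elim A B) R (t + 1) (Sum.elim p s) v := by
    intro t
    induction t with
    | zero =>
      intro p v h
      obtain ⟨i, hi⟩ := h
      exact Or.inl ⟨Sum.inl i, hi⟩
    | succ t ih =>
      intro p v h
      by_cases hv : v ∈ V'
      · rcases h with ⟨i, hi⟩ | ⟨p', hp', h | h⟩
        · exact Or.inl ⟨Sum.inl i, hi⟩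
        · obtain ⟨i, hi⟩ := h
          refine Or.inr ⟨Sum.elim p' s, ?_, Or.inl ⟨Sum.inl i, hi⟩⟩
          rintro (i | j)
          · exact hp' i
          · exact Or.inl rfl
        · refine Or.inr ⟨Sum.elim p' s, ?_, Or.inr ?_⟩
          · rintro (i | j)
            · exact hp' i
            · exact Or.inl rfl
          · intro r' hr'
            by_cases hv' : r' ∈ V'
            · refine ih p' r' (h r' ?_)
              rcases hr' with hr' | hr'
              · exact Or.inl hr'
              · exact Or.inr (hRH v r' hr' hv hv')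
            · exact guard t p' r' hv'
      · exact guard (t + 1) p v hv
  by_cases hv : r ∈ V'
  · obtain ⟨t, ht⟩ := hr hv
    exact ⟨t + 1, main t p r ht⟩
  · exact ⟨1, guard 0 p r hv⟩

end H73.ML
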