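import Pool.Agent.H57.ML.Targets

/-! Static cops. -/

namespace H73.ML

open H57.ML
open scoped BigOperators
open Finset
open Classical

theorem sta : StaStmt := by
  intro V _ G D0 hD0
  -- dominated vertices
  set dom : Finset V → Finset V := fun S => univ.filter (fun u => u ∈ S ∨ ∃ s ∈ S, G.Adj s u)
    with hdom
  set fam : Finset (Finset V) := univ.filter (fun S => D0 * S.card ≤ (dom S).card) with hfam
  have hne : fam.Nonempty := ⟨∅, by simp [hfam]⟩
  obtain ⟨S, hS, hmax⟩ := fam.exists_max_image (fun S => S.card) hne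
  have hS' : D0 * S.card ≤ (dom S).card := by
    simpa [hfam] using hS
  refine ⟨S, hS'.trans (card_le_univ _), fun v => ?_⟩
  by_contra hcon
  push Not at hcon
  set U := univ.filter (fun u => G.Adj v u ∧ u ∉ S ∧ ∀ s ∈ S, ¬ G.Adj s u) with hU
  have hvS : v ∉ S := by
    intro hv
    have : U = ∅ := by
      rw [hU, filter_eq_empty_iff]
      rintro u _ ⟨h1, h2, h3⟩
      exact h3 v hv h1
    rw [this] at hcon
    simp at hcon
    omega
  have hsub : dom S ∪ U ⊆ dom (insert v S) := by
    intro u hu
    simp only [hdom, mem_filter, mem_univ, true_and, mem_insert, hU, mem_union] at hu ⊢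
    rcases hu with (hu | ⟨s, hs, h⟩) | ⟨h, _⟩
    · exact Or.inl (Or.inr hu)
    · exact Or.inr ⟨s, Or.inr hs, h⟩
    · exact Or.inr ⟨v, Or.inl rfl, h⟩
  have hdisj : Disjoint (dom S) U := by
    rw [disjoint_left]
    intro u hu hu'
    simp only [hdom, hU, mem_filter, mem_univ, true_and] at hu hu'
    rcases hu with hu | ⟨s, hs, h⟩
    · exact hu'.2.1 hu
    · exact hu'.2.2 s hs h
  have h1 : D0 * (insert v S).card ≤ (dom (insert v S)).card := by
    rw [card_insert_of_notMem hvS]
    calc D0 * (S.card + 1) = D0 * S.card + D0 := by ring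
      _ ≤ (dom S).card + U.card := Nat.add_le_add hS' hcon
      _ = (dom S ∪ U).card := (card_union_of_disjoint hdisj).symm
      _ ≤ _ := card_le_card hsub
  have h2 := hmax (insert v S) (by simpa [hfam] using h1)
  rw [card_insert_of_notMem hvS] at h2
  omega

end H73.ML
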